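import Pool.Agent.K3h2.LT.Stm3

/-! Brick FIN3: a normalised orbit converges, d = 3 (adapted from the file of helper17 by helper84). -/

set_option autoImplicit false

open Filter Topology

namespace Pool.Agent.K3h84.LT

open Pool.Agent.K3h2.LT

/-- a limit point along a subsequence of a given one -/
theorem limpt (hFIX : S3_FIX) (hSUB : S_SUB) {C L : ℝ} {s : ℕ → ℤ → ℝ} {lam : ℕ → ℝ}
    (h : Orb3 C L s lam) (φ : ℕ → ℕ) (hφ : StrictMono φ) :
    ∃ (ψ : ℕ → ℕ) (x : ℤ → ℝ), StrictMono ψ ∧ Fx3 C L x ∧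
      ∀ k, Tendsto (fun j => s (φ (ψ j)) k) atTop (𝓝 (x k)) := by
  have hb : ∀ n k, |s (φ n) k| ≤ C := by
    intro n k
    rw [abs_of_nonneg (h.nonneg _ _)]
    refine (h.dom _ _).trans ?_
    have h1 : ((1 : ℝ) / 2) ^ k.natAbs ≤ 1 := pow_le_one₀ (by norm_num) (by norm_num)
    have h2 := h.Cpos
    nlinarith
  obtain ⟨ψ, x, hψ, hx⟩ := hSUB (fun n => s (φ n)) C hb
  exact ⟨ψ, x, hψ, (hFIX.1 C L s lam h (fun j => φ (ψ j)) x ((hφ.comp hψ).tendsto_atTop) hx).1, hx⟩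

theorem core (hLOW : S3_LOW) (hUPP : S3_UPP) (hSMO : S3_SMO) (hONE : S3_ONE) (hFIX : S3_FIX)
    (hSUB : S_SUB) (hUNI : S_UNI) (hDYN : S_DYN) (hIVT : S_IVT)
    {C L : ℝ} {s : ℕ → ℤ → ℝ} {lam : ℕ → ℝ} (h : Orb3 C L s lam) (M : ℤ)
    (hM : ∀ k, M < k → 3 * C ^ 2 * (1 / 2) ^ k.natAbs ≤ L / 4)
    (φ₁ φ₂ : ℕ → ℕ) (h₁ : StrictMono φ₁) (h₂ : StrictMono φ₂) (x₁ x₂ : ℤ → ℝ)
    (hx₁ : ∀ k, Tendsto (fun j => s (φ₁ j) k) atTop (𝓝 (x₁ k)))
    (hx₂ : ∀ k, Tendsto (fun j => s (φ₂ j) k) atTop (𝓝 (x₂ k))) (hlt : x₁ M < x₂ M) : False := by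
  have hone := hONE C L s lam h
  -- the sequence of the values at `M`
  have ht : Tendsto (fun n => s (n + 1) M - s n M) atTop (𝓝 0) := by
    rw [Metric.tendsto_atTop]
    intro ε hε
    obtain ⟨N, hN⟩ := hone (ε / 2) (by positivity)
    refine ⟨N, fun n hn => ?_⟩
    rw [Real.dist_eq, sub_zero]
    exact lt_of_le_of_lt (hN n hn M) (by linarith)
  have hfix : ∀ t, x₁ M < t → t < x₂ M → ∃ (θ : ℕ → ℕ) (y : ℤ → ℝ), StrictMono θ ∧ Fx3 C L y ∧
      y M = t ∧ ∀ k, Tendsto (fun j => s (θ j) k) atTop (𝓝 (y k)) := by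
    intro t ht1 ht2
    obtain ⟨θ, hθ, hθt⟩ := hIVT (fun n => s n M) ht (x₁ M) (x₂ M) t φ₁ φ₂ h₁ h₂ (hx₁ M) (hx₂ M) ht1 ht2
    obtain ⟨ψ, y, hψ, hy, hyt⟩ := limpt hFIX hSUB h θ hθ
    refine ⟨fun j => θ (ψ j), y, hθ.comp hψ, hy, ?_, hyt⟩
    exact tendsto_nhds_unique (hyt M) (hθt.comp hψ.tendsto_atTop)
  obtain ⟨θ, x₀, hθ, hx₀, hc, hlim⟩ := hfix ((x₁ M + x₂ M) / 2) (by linarith) (by linarith)
  have hρ : 0 < (x₂ M - x₁ M) / 4 := by linarith
  obtain ⟨ε, K, N, hε, hK, hlow⟩ := hLOW C L s lam h M hM x₀ ((x₂ M - x₁ M) / 4) hx₀ hρ (by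
    intro t ht'
    rw [hc] at ht'
    rw [abs_lt] at ht'
    obtain ⟨_, y, _, hy, hyM, _⟩ := hfix t (by linarith) (by linarith)
    exact ⟨y, hy, hyM⟩)
  obtain ⟨Ku, hKu, hupp⟩ := hUPP C L s lam h
  obtain ⟨Ks, hKs, hsmo⟩ := hSMO C L s lam h
  have hmono : ∀ n, 0 ≤ lam (n + 2) - lam n := fun n => by
    have := h.mono (show n ≤ n + 2 by omega)
    linarith
  have hrr : ∀ n, (L - lam n) - (L - lam (n + 2)) = lam (n + 2) - lam n := fun n => by ring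
  have key := hDYN s x₀ (fun n => L - lam n) (Ks + Ku * (K * Ks) ^ 2) ε N (by positivity) hε
    (fun n => by linarith [h.leL n])
    (fun a b hab => by
      have := h.mono hab
      show L - lam b ≤ L - lam a
      linarith)
    (by
      have h3 := (tendsto_const_nhds (x := L)).sub h.lim
      rw [sub_self] at h3
      exact h3)
    (fun n k => by
      show |s (n + 3) k - s (n + 1) k| ≤ (Ks + Ku * (K * Ks) ^ 2) *
        Real.sqrt ((L - lam n) - (L - lam (n + 2)))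
      rw [hrr]
      refine (hsmo n k).trans ?_
      have h3 : 0 ≤ Real.sqrt (lam (n + 2) - lam n) := Real.sqrt_nonneg _
      have h4 : 0 ≤ Ku * (K * Ks) ^ 2 := by positivity
      nlinarith)
    (fun n hn hclose => by
      show L - lam (n + 1) ≤ (Ks + Ku * (K * Ks) ^ 2) * ((L - lam n) - (L - lam (n + 2)))
      rw [hrr]
      obtain ⟨y, hy, hyd⟩ := hlow (n + 1) (by omega) hclose
      have h3 := hyd (Ks * Real.sqrt (lam (n + 2) - lam n)) (by positivity) (fun k => hsmo n k)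
      have h4 := hupp (n + 1) y (K * (Ks * Real.sqrt (lam (n + 2) - lam n))) hy (by positivity) h3
      refine h4.trans ?_
      have h5 : (K * (Ks * Real.sqrt (lam (n + 2) - lam n))) ^ 2 =
          (K * Ks) ^ 2 * (lam (n + 2) - lam n) := by
        rw [← mul_assoc, mul_pow, Real.sq_sqrt (hmono n)]
      rw [h5]
      have h6 := mul_nonneg hKs.le (hmono n)
      nlinarith)
    (fun ε' hε' N' => by
      obtain ⟨N₁, hN₁⟩ := hone (ε' / 2) (by positivity)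
      obtain ⟨J, hJ⟩ := (hUNI C (fun j => s (θ j)) x₀ (fun n k => ⟨h.nonneg _ _, h.dom _ _⟩) hlim).1
        (ε' / 2) (by positivity)
      have hj : max J (max N' N₁) ≤ θ (max J (max N' N₁)) := hθ.le_apply
      refine ⟨θ (max J (max N' N₁)), ?_, fun k => ?_⟩
      · exact ((le_max_left _ _).trans (le_max_right _ _)).trans hj
      · have h3 := hJ (max J (max N' N₁)) (le_max_left _ _) k
        have h4 := hN₁ (θ (max J (max N' N₁)))
          (((le_max_right _ _).trans (le_max_right _ _)).trans hj) k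
        rw [abs_le] at h3 h4
        constructor <;> rw [abs_le] <;> constructor <;> linarith)
  obtain ⟨N', hN'⟩ := key ((x₂ M - x₁ M) / 4) hρ
  have h3 : Tendsto (fun j => |s (φ₁ j) M - x₀ M|) atTop (𝓝 |x₁ M - x₀ M|) :=
    ((hx₁ M).sub tendsto_const_nhds).abs
  have h4 : |x₁ M - x₀ M| ≤ (x₂ M - x₁ M) / 4 := by
    refine le_of_tendsto h3 ?_
    filter_upwards [eventually_ge_atTop N'] with j hj
    exact hN' (φ₁ j) (hj.trans h₁.le_apply) M
  rw [hc, abs_le] at h4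
  linarith

theorem t_FIN3 : S3_LOW → S3_UPP → S3_SMO → S3_ONE → S3_FIX → S_SUB → S_UNI → S_DYN → S_IVT → S3_FIN := by
  intro hLOW hUPP hSMO hONE hFIX hSUB hUNI hDYN hIVT C L s lam h
  -- the choice of `M`
  obtain ⟨M, hM⟩ : ∃ M : ℤ, ∀ k, M < k → 3 * C ^ 2 * (1 / 2) ^ k.natAbs ≤ L / 4 := by
    have hC := h.Cpos
    have hL := h.Lpos
    obtain ⟨m, hm⟩ := exists_pow_lt_of_lt_one (show (0 : ℝ) < L / 4 / (3 * C ^ 2) by positivity)
      (show (1 / 2 : ℝ) < 1 by norm_num)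
    refine ⟨m, fun k hk => ?_⟩
    have h1 : m ≤ k.natAbs := by omega
    have h2 : (1 / 2 : ℝ) ^ k.natAbs ≤ (1 / 2 : ℝ) ^ m :=
      pow_le_pow_of_le_one (by norm_num) (by norm_num) h1
    have h3 : (1 / 2 : ℝ) ^ k.natAbs ≤ L / 4 / (3 * C ^ 2) := h2.trans hm.le
    rw [le_div_iff₀ (by positivity)] at h3
    linarith
  obtain ⟨ψ, x, hψ, hx, hlim⟩ := limpt hFIX hSUB h id strictMono_id
  refine ⟨x, hx, ?_⟩
  by_contra hcon
  push Not at hcon
  obtain ⟨k₀, hk₀⟩ := hcon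
  rw [Metric.tendsto_atTop] at hk₀
  push Not at hk₀
  obtain ⟨ε, hε, hfr⟩ := hk₀
  have hfr' : ∃ᶠ n in atTop, ε ≤ dist (s n k₀) (x k₀) := by
    rw [frequently_atTop]
    intro N
    obtain ⟨n, hn, h1⟩ := hfr N
    exact ⟨n, hn, h1⟩
  obtain ⟨θ, hθ, hθε⟩ := extraction_of_frequently_atTop hfr'
  obtain ⟨ψ', x', hψ', hx', hlim'⟩ := limpt hFIX hSUB h θ hθ
  have hne : x ≠ x' := by
    intro he
    have h1 : Tendsto (fun j => dist (s (θ (ψ' j)) k₀) (x k₀)) atTop (𝓝 (dist (x' k₀) (x k₀))) :=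
      (hlim' k₀).dist tendsto_const_nhds
    have h2 : ε ≤ dist (x' k₀) (x k₀) := ge_of_tendsto' h1 fun j => hθε (ψ' j)
    rw [he, dist_self] at h2
    linarith
  have hneM : x M ≠ x' M := fun he => hne (hFIX.2.2 C L x x' M h.Lpos h.Cpos hM hx hx' he)
  rcases lt_or_gt_of_ne hneM with hlt | hlt
  · exact core hLOW hUPP hSMO hONE hFIX hSUB hUNI hDYN hIVT h M hM (fun j => id (ψ j))
      (fun j => θ (ψ' j)) hψ (hθ.comp hψ') x x' hlim hlim' hlt
  · exact core hLOW hUPP hSMO hONE hFIX hSUB hUNI hDYN hIVT h M hM (fun j => θ (ψ' j))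
      (fun j => id (ψ j)) (hθ.comp hψ') hψ x' x hlim' hlim hlt

end Pool.Agent.K3h84.LT
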